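import Pool.Agent.Work.MP_e4a69c_an.QT.Main

/-! Quotients of complements of zero sets of multiaffine maps are G/N-elliptic, for every complex Lie
group `G` and every normal subgroup `N` which acts freely with a principal bundle as quotient. -/

set_option autoImplicit false

namespace Pool.Agent.Results.MP_e4a69c_an.MultiaffineQuotients

open scoped Manifold ContDiff Topology
open Pool.Agent.Work.MP_e4a69c_an.SU Pool.Agent.Work.MP_e4a69c_an.ML
open Pool.Agent.Work.MP_e4a69c_an.QT

/-- **Theorem.** Let `G` be a complex Lie group, `N` a normal subgroup, `M i` (`i` in a finite set)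
and `E` finite dimensional G-modules, `F : Π M i → E` an equivariant entire map which is affine in every
variable `x i`, and `U = {x : F x ≠ 0}`. Let `Z` be a complex manifold with a holomorphic action of `G`,
and `q : U → Z` a G-equivariant holomorphic principal `N`-bundle. Then `Z` is a `G/N`-elliptic manifold:
there are a holomorphic vector bundle of finite rank on `Z`, a lift of the action of `G/N` by bundle
isomorphisms, and an equivariant holomorphic map `s` from the total space to `Z` with `s(0_z) = z` which on
every fibre is a submersion at `0`. (For `N = 1`: `U` itself is G-elliptic.) -/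
theorem result :
    ∀ (𝔤 : Type) [NormedAddCommGroup 𝔤] [NormedSpace ℂ 𝔤]
      (G : Type) [TopologicalSpace G] [ChartedSpace 𝔤 G] [Group G] [LieGroup 𝓘(ℂ, 𝔤) ω G]
      (N : Subgroup G) [N.Normal]
      (ι : Type) [Fintype ι] [DecidableEq ι] (M : ι → Type)
      [∀ i, NormedAddCommGroup (M i)] [∀ i, NormedSpace ℂ (M i)]
      [∀ i, FiniteDimensional ℂ (M i)]
      (E : Type) [NormedAddCommGroup E] [NormedSpace ℂ E] [FiniteDimensional ℂ E]
      (ρ : ∀ i, GMod 𝔤 G (M i)) (ρE : GMod 𝔤 G E) (ρV : GMod 𝔤 G (∀ i, M i))
      (F : (∀ i, M i) → E)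
      (H : Type) [NormedAddCommGroup H] [NormedSpace ℂ H]
      (Z : Type) [TopologicalSpace Z] [ChartedSpace H Z] [IsManifold 𝓘(ℂ, H) ∞ Z]
      [MulAction G Z] (q : (∀ i, M i) → Z),
      IsPiM ρ ρV → IsMaff ρV ρE F → IsHolAct 𝔤 G H Z →
        IsPrinc H N ρV {x | F x ≠ 0} q → IsEllipticM 𝔤 G H Z N :=
  Pool.Agent.Work.MP_e4a69c_an.QT.main

end Pool.Agent.Results.MP_e4a69c_an.MultiaffineQuotients
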