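import Pool.Agent.Work.MP_e4a69c_an.ML.Final

/-! Multilinear suspensions `Y = {(x,z) ∈ (Π M_i) × B : f(x) = p(z)}`: for every reductive `G` acting
trivially on `B` and every invariant multilinear form `f`, `Y` is G-elliptic if and only if `Y^G` is. -/

set_option autoImplicit false

namespace Pool.Agent.Results.MP_e4a69c_an.MultilinearSuspensions

open scoped Manifold ContDiff Topology
open Pool.Agent.Work.MP_e4a69c_an.SU Pool.Agent.Work.MP_e4a69c_an.ML

/-- **Theorem.** `G` a complex Lie group, `N` a normal subgroup with a compact form `K` (for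
instance `N` reductive), `M i` (`i` in a nonempty finite set) and `B` finite dimensional G-modules, `L` a
one dimensional G-module, `f : Π M i → L` an equivariant multilinear form, `N` acting trivially on `B`,
`p : B → L` an equivariant entire function with `dp ≠ 0` on `C = {p = 0}`. Let
`Y = {(x,z) ∈ (Π M i) × B : f(x) = p(z)}`, with tangent spaces `T`. Then `Y` is smooth, and
(1) if `C` is G-elliptic, so is `Y`;
(2) if `f = 0` on the N-fixed `x`, then `Y` is G-elliptic if and only if `C` is;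
(3) if `N = G`, then `Y` is G-elliptic if and only if `Y^G` is, if and only if `f ≠ 0` at some G-fixed
`x` or `C` is G-elliptic. -/
theorem result :
    ∀ (𝔤 : Type) [NormedAddCommGroup 𝔤] [NormedSpace ℂ 𝔤]
      (G : Type) [TopologicalSpace G] [ChartedSpace 𝔤 G] [Group G] [LieGroup 𝓘(ℂ, 𝔤) ω G]
      (N K : Subgroup G) [N.Normal], IsCompactFormOf 𝔤 K N →
    ∀ (ι : Type) [Fintype ι] [DecidableEq ι] [Nonempty ι] (M : ι → Type)
      [∀ i, NormedAddCommGroup (M i)] [∀ i, NormedSpace ℂ (M i)]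
      [∀ i, FiniteDimensional ℂ (M i)]
      (B : Type) [NormedAddCommGroup B] [NormedSpace ℂ B] [FiniteDimensional ℂ B]
      (ρ : ∀ i, GMod 𝔤 G (M i)) (ρL : GMod 𝔤 G ℂ) (ρB : GMod 𝔤 G B)
      (ρV : GMod 𝔤 G ((∀ i, M i) × B)) (f : ContinuousMultilinearMap ℂ M ℂ) (p : B → ℂ),
      IsProd ρ ρB ρV → IsEqui ρ ρL f → IsBase N ρL ρB p →
      (∀ y ∈ Yf f p, Tf f p y ≠ Set.univ) ∧
      (EllC ρB p → EllY ρV f p) ∧
      ((∀ x, Fixed N ρ x → ev f x = 0) → (EllY ρV f p ↔ EllC ρB p)) ∧
      (N = ⊤ → (EllY ρV f p ↔ EllYN N ρV f p) ∧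
        (EllY ρV f p ↔ (∃ x, Fixed N ρ x ∧ ev f x ≠ 0) ∨ EllC ρB p)) :=
  Pool.Agent.Work.MP_e4a69c_an.ML.main

end Pool.Agent.Results.MP_e4a69c_an.MultilinearSuspensions
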