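import Pool.Agent.Work.MP_e4a69c_an.SU.Final

/-! Suspensions `Y = {(x,ξ,z) ∈ M × M' × B : β(x,ξ) = p(z)}` and a normal reductive subgroup
`N` of `G` acting trivially on the base `B`: `Y` is G-elliptic if and only if its N-fixed locus is. -/

set_option autoImplicit false

namespace Pool.Agent.Results.MP_e4a69c_an.SuspensionCriterion

open scoped Manifold ContDiff Topology
open Pool.Agent.Work.MP_e4a69c_an.SU

/-- **Theorem.** `G` a complex Lie group, `N` a normal subgroup with a compact form `K` (for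
instance `N` reductive), `M`, `M'` and `B` finite dimensional G-modules, `L` a one dimensional
G-module, `β : M × M' → L` an equivariant perfect pairing, `p : B → L` an equivariant entire
function with `dp ≠ 0` on `{p = 0}`, `N` acting trivially on `B`. Let
`Y = {(x,ξ,z) ∈ M × M' × B : β(x,ξ) = p(z)}`, with tangent spaces `T`. Then `Y` is smooth, and
(1) `Y` is G-elliptic if and only if the fixed locus `Y^N` is G-elliptic;
(2) if `M^N = 0`, `Y` is G-elliptic if and only if `{p = 0}` is G-elliptic;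
(3) if `N = G` and `M^G ≠ 0`, `Y` is G-elliptic. -/
theorem result :
    ∀ (𝔤 : Type) [NormedAddCommGroup 𝔤] [NormedSpace ℂ 𝔤]
      (G : Type) [TopologicalSpace G] [ChartedSpace 𝔤 G] [Group G] [LieGroup 𝓘(ℂ, 𝔤) ω G]
      (N K : Subgroup G) [N.Normal], IsCompactFormOf 𝔤 K N →
    ∀ (M M' B : Type) [NormedAddCommGroup M] [NormedSpace ℂ M] [FiniteDimensional ℂ M]
      [NormedAddCommGroup M'] [NormedSpace ℂ M'] [FiniteDimensional ℂ M']
      [NormedAddCommGroup B] [NormedSpace ℂ B] [FiniteDimensional ℂ B]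
      (ρ : GMod 𝔤 G M) (ρ' : GMod 𝔤 G M') (ρL : GMod 𝔤 G ℂ) (ρB : GMod 𝔤 G B)
      (ρV : GMod 𝔤 G (M × M' × B)) (β : M →L[ℂ] M' →L[ℂ] ℂ) (p : B → ℂ),
      (∀ g x ξ z, ρV.act g (x, ξ, z) = (ρ.act g x, ρ'.act g ξ, ρB.act g z)) →
      (∀ g x ξ, β (ρ.act g x) (ρ'.act g ξ) = ρL.act g (β x ξ)) →
      (∀ x, (∀ ξ, β x ξ = 0) → x = 0) → (∀ ξ, (∀ x, β x ξ = 0) → ξ = 0) →
      Differentiable ℂ p → (∀ g z, p (ρB.act g z) = ρL.act g (p z)) →
      (∀ z, p z = 0 → fderiv ℂ p z ≠ 0) → (∀ n ∈ N, ∀ z, ρB.act n z = z) →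
    ∀ (Y : Set (M × M' × B)) (T : M × M' × B → Set (M × M' × B)),
      Y = {y | β y.1 y.2.1 = p y.2.2} →
      T = (fun y => {τ | β τ.1 y.2.1 + β y.1 τ.2.1 = fderiv ℂ p y.2.2 τ.2.2}) →
      (∀ y ∈ Y, T y ≠ Set.univ) ∧
      (GEll ρV Y T ↔ GEll ρV (Y ∩ {y | ∀ n ∈ N, ρV.act n y = y})
        (fun y => T y ∩ {τ | ∀ n ∈ N, ρV.act n τ = τ})) ∧
      ((∀ x, (∀ n ∈ N, ρ.act n x = x) → x = 0) →
        (GEll ρV Y T ↔ GEll ρB {z | p z = 0} (fun z => {b | fderiv ℂ p z b = 0}))) ∧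
      (N = ⊤ → (∃ x, x ≠ 0 ∧ ∀ g, ρ.act g x = x) → GEll ρV Y T) := main

end Pool.Agent.Results.MP_e4a69c_an.SuspensionCriterion
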