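import Pool.Agent.Work.MP_e4a69c_an.DZ.Final

/-! The zero set principle: G-ellipticity of `{f(y,x) = p(z)}`, `f` linear in `y`, depends only on the
zero set of `x ↦ f(·,x)`. -/

set_option autoImplicit false

namespace Pool.Agent.Results.MP_e4a69c_an.ZeroSetPrinciple

open scoped Manifold ContDiff Topology
open Pool.Agent.Work.MP_e4a69c_an.SU Pool.Agent.Work.MP_e4a69c_an.ML
open Pool.Agent.Work.MP_e4a69c_an.DZ

/-- **Theorem.** `G` a complex Lie group; `M i` (`i` in a finite set), `E`, `E'`, `B` finite dimensional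
G-modules, `G` trivial on `B`; `f(y,x)` (`y` in `E`, `x` in `Π M i`) and `f'(y',x)` (`y'` in `E'`) entire,
G-invariant, linear in the first variable, and with the same zero set: `f(y,x)^n = f'(Q(y,x),x)` and
`f'(y',x)^m = f(P(y',x),x)` for some `n`, `m` and equivariant entire `Q`, `P`; `p` entire on `B` with
`1 = a p + dp(v)` for some entire `a`, `v`; `C = {p = 0}`, `Y = {(y,x,z) : f(y,x) = p(z)}`,
`Y' = {(y',x,z) : f'(y',x) = p(z)}`. Then `Y` is smooth, and
(1) `Y` is G-elliptic if and only if `Y'` is;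
(2) if `f'` is affine in every `x i` and `C` is elliptic, then `Y` is G-elliptic;
(3) if `f'` is affine in every `x i` and `G` has a compact form (for instance `G` reductive), then `Y` is
G-elliptic if and only if the fixed locus `Y^G` is, if and only if `f ≠ 0` at some G-fixed `(y,x)` or `C`
is elliptic. -/
theorem result :
    ∀ (𝔤 : Type) [NormedAddCommGroup 𝔤] [NormedSpace ℂ 𝔤]
      (G : Type) [TopologicalSpace G] [ChartedSpace 𝔤 G] [Group G] [LieGroup 𝓘(ℂ, 𝔤) ω G]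
      (ι : Type) [Fintype ι] [DecidableEq ι] (M : ι → Type)
      [∀ i, NormedAddCommGroup (M i)] [∀ i, NormedSpace ℂ (M i)]
      [∀ i, FiniteDimensional ℂ (M i)]
      (E E' B : Type) [NormedAddCommGroup E] [NormedSpace ℂ E] [FiniteDimensional ℂ E]
      [NormedAddCommGroup E'] [NormedSpace ℂ E'] [FiniteDimensional ℂ E']
      [NormedAddCommGroup B] [NormedSpace ℂ B] [FiniteDimensional ℂ B]
      (ρ : ∀ i, GMod 𝔤 G (M i)) (ρE : GMod 𝔤 G E) (ρE' : GMod 𝔤 G E') (ρB : GMod 𝔤 G B)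
      (ρV : GMod 𝔤 G ((E × (∀ i, M i)) × B)) (ρV' : GMod 𝔤 G ((E' × (∀ i, M i)) × B))
      (f : E × (∀ i, M i) → ℂ) (f' : E' × (∀ i, M i) → ℂ) (p : B → ℂ),
      IsProdT ρE ρ ρB ρV → IsProdT ρE' ρ ρB ρV' → IsInv ρE ρ f → IsInv ρE' ρ f' →
      Below ρE ρE' ρ f f' → Below ρE' ρE ρ f' f → IsTBase ρB p →
      (∀ v ∈ YZ f p, TZ f p v ≠ Set.univ) ∧
      (EllZ ρV f p ↔ EllZ ρV' f' p) ∧
      (IsMultiAff f' → (EllC ρB p → EllZ ρV f p) ∧
        ∀ K : Subgroup G, IsCompactFormOf 𝔤 K ⊤ →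
          (EllZ ρV f p ↔ EllZG ρV f p) ∧
          (EllZ ρV f p ↔ (∃ q, (∀ g, act2 ρE ρ g q = q) ∧ f q ≠ 0) ∨ EllC ρB p)) :=
  Pool.Agent.Work.MP_e4a69c_an.DZ.main

end Pool.Agent.Results.MP_e4a69c_an.ZeroSetPrinciple
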